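import Pool.Agent.Lib.MP_9b2593_an.Uq.Main

/-!
A normalised univalent function that omits a large part of the unit disc.
-/

namespace Pool.Agent.Results.MP_9b2593_an.Lower

theorem result : ∃ f : ℂ → ℂ, DifferentiableOn ℂ f (Metric.ball 0 1) ∧ Set.InjOn f (Metric.ball 0 1) ∧
    f 0 = 0 ∧ deriv f 0 = 1 ∧ ENNReal.ofReal (0.2385811 * Real.pi) ≤
      MeasureTheory.volume (Metric.ball (0 : ℂ) 1 \ f '' Metric.ball 0 1) := by
  obtain ⟨f, ⟨h1, h2, h3, h4⟩, h5⟩ := Pool.Agent.Lib.MP_9b2593_an.Uq.om_lower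
  exact ⟨f, h1, h2, h3, h4, h5⟩

end Pool.Agent.Results.MP_9b2593_an.Lower
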