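import Pool.Agent.Lib.MP_9b2593_an.Uq.Main

/-!
Exactly one normalised univalent function is circularly symmetric about the positive real axis and
omits the largest possible area of the unit disc.
-/

open Complex Metric Set MeasureTheory

namespace Pool.Agent.Results.MP_9b2593_an.Unique

/-- The class `S` of normalised univalent functions on the unit disc. -/
def InS (f : ℂ → ℂ) : Prop :=
  DifferentiableOn ℂ f (ball 0 1) ∧ InjOn f (ball 0 1) ∧ f 0 = 0 ∧ deriv f 0 = 1

/-- The area `A(f)` of the part of the unit disc omitted by `f`. -/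
noncomputable def omitted (f : ℂ → ℂ) : ENNReal := volume (ball (0 : ℂ) 1 \ f '' ball 0 1)

/-- The constant `A`, the supremum of `A(f)` over the class `S`. -/
noncomputable def supOmitted : ENNReal := ⨆ (h : ℂ → ℂ) (_ : InS h), omitted h

/-- Circular symmetry about the positive real axis. -/
def CircSym (f : ℂ → ℂ) : Prop :=
  ∀ r ∈ Ioo (0 : ℝ) 1,
    AntitoneOn (fun θ : ℝ => ‖f (r * exp (θ * I))‖) (Ioo 0 Real.pi) ∧
    AntitoneOn (fun θ : ℝ => ‖f (r * exp (-(θ * I)))‖) (Ioo 0 Real.pi)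

theorem result : ∃ f : ℂ → ℂ, (InS f ∧ omitted f = supOmitted ∧ CircSym f) ∧
    ∀ g : ℂ → ℂ, InS g ∧ omitted g = supOmitted ∧ CircSym g → EqOn g f (ball 0 1) := by
  obtain ⟨f, hf, hc, he⟩ := Pool.Agent.Lib.MP_9b2593_an.Uq.extremal_exists
  have le : ∀ h, InS h → omitted h ≤ supOmitted := fun h hh =>
    le_iSup₂ (f := fun (h : ℂ → ℂ) (_ : InS h) => omitted h) h hh
  refine ⟨f, ⟨hf, le_antisymm (le f hf) (iSup₂_le he), hc⟩, fun g hg => ?_⟩
  exact Pool.Agent.Lib.MP_9b2593_an.Uq.extremal_unique hg.1 hg.2.2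
    (fun h hh => (le h hh).trans hg.2.1.ge) hf hc he

end Pool.Agent.Results.MP_9b2593_an.Unique
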