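import Pool.Agent.Lib.MP_9b2593_an.Uq.Main

/-!
An upper bound for the area of the part of the unit disc omitted by a normalised univalent function.
-/

namespace Pool.Agent.Results.MP_9b2593_an.Upper

theorem result (f : ℂ → ℂ) (hf : DifferentiableOn ℂ f (Metric.ball 0 1))
    (hinj : Set.InjOn f (Metric.ball 0 1)) (h0 : f 0 = 0) (h1 : deriv f 0 = 1) :
    MeasureTheory.volume (Metric.ball (0 : ℂ) 1 \ f '' Metric.ball 0 1) ≤
      ENNReal.ofReal (0.238582 * Real.pi) :=
  Pool.Agent.Lib.MP_9b2593_an.Uq.om_upper ⟨hf, hinj, h0, h1⟩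

end Pool.Agent.Results.MP_9b2593_an.Upper
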